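import Mathlib
import Pool.Agent.Helper27.WalkDefs
import Pool.Agent.LAP.Stmt
import Pool.Agent.LAP.Main

set_option autoImplicit false

namespace Pool.Agent.Results.MP_d44763_nt.AlmostPrimes

open Pool.Agent.Helper27 Pool.Agent.LAP

/-- Exact order of the least number of almost primes on an `(i, j)`-walk.  `Rough δ m`: `m ≥ 2` and all prime factors of
`m` are larger than `m ^ δ`; `hits δ A x`: number of `n` with `A n ≤ x` and `A n` rough; `expo i j = j / gcd(i, j)`.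
From every odd `k` some walk has `≤ C x / (log x) ^ b` rough terms up to `x`; for the listed pairs every walk has
`≥ c x / (log x) ^ b` of them; for the other pairs some walks have none, because all their terms have a prime factor
`≤ 3 j`. -/
theorem result (i j : ℤ) (hi : Even i) (hj : Even j) (h0 : 0 < i) (hij : i < j) :
    (∀ δ : ℝ, 0 < δ → δ < 1 → ∃ C : ℝ, 0 < C ∧ ∀ k : ℤ, Odd k → ∃ A : ℕ → ℤ, IsWalk i j k A ∧
      ∀ x : ℝ, 2 ≤ x → (hits δ A x : ℝ) ≤ C * x / Real.log x ^ expo i j) ∧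
    (Listed i j → ∃ δ c : ℝ, 0 < δ ∧ δ < 1 ∧ 0 < c ∧ ∀ k : ℤ, Odd k → ∃ x0 : ℝ, ∀ A : ℕ → ℤ, IsWalk i j k A →
      ∀ x : ℝ, x0 ≤ x → c * x / Real.log x ^ expo i j ≤ (hits δ A x : ℝ)) ∧
    (¬ Listed i j → ∀ K : ℤ, ∃ k : ℤ, K ≤ k ∧ Odd k ∧ ∃ A : ℕ → ℤ, IsWalk i j k A ∧
      ∀ n : ℕ, ∃ p : ℕ, p.Prime ∧ (p : ℤ) ≤ 3 * j ∧ (p : ℤ) ∣ A n) :=
  main i j hi hj h0 hij

end Pool.Agent.Results.MP_d44763_nt.AlmostPrimes
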