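import Mathlib
import Pool.Agent.Helper27.WalkDefs
import Pool.Agent.Helper27.WalkRatio

set_option autoImplicit false

namespace Pool.Agent.Results.MP_d44763_nt.RatioNecessary

open Pool.Agent.Helper27

/-- For distinct positive even steps `i < j`: either `i = 2 ^ u` (with `u ≥ 1`) and `j / i` is one
of `2, 4, 8, 16, 256`, or there are arbitrarily large odd starting points with a prime-free
`(i, j)`-walk, whose steps can moreover be taken periodic with period at most three. In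
particular a pair that forces primes is of the first kind. -/
theorem result (i j : ℤ) (hi : Even i) (hj : Even j) (h0 : 0 < i) (hij : i < j) :
    (∃ u : ℕ, 1 ≤ u ∧ i = 2 ^ u ∧
      (j = 2 * i ∨ j = 4 * i ∨ j = 8 * i ∨ j = 16 * i ∨ j = 256 * i)) ∨
    (¬ ForcesPrimes i j ∧
      ∃ T : ℕ, 1 ≤ T ∧ T ≤ 3 ∧ ∀ K : ℤ, ∃ k : ℤ, K ≤ k ∧ Odd k ∧ ∃ A : ℕ → ℤ,
        IsWalk i j k A ∧ (∀ n : ℕ, A (n + T + 1) - A (n + T) = A (n + 1) - A n) ∧
          ∀ n : ℕ, ¬ IsPosPrime (A n)) := by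
  rcases ratio i j hi hj h0 hij with h | h
  · exact Or.inl h
  · refine Or.inr ⟨fun hF => ?_, h⟩
    obtain ⟨T, _, _, hT⟩ := h
    obtain ⟨k, _, hk, A, hA, _, hnp⟩ := hT 0
    obtain ⟨n, hn⟩ := hF k hk A hA
    exact hnp n hn

end Pool.Agent.Results.MP_d44763_nt.RatioNecessary
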