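import Mathlib
import Pool.Agent.SW.FDefs
import Pool.Agent.SWQ.FDefs
import Pool.Agent.SW.Final
import Pool.Agent.SWQ.Final

set_option autoImplicit false

namespace Pool.Agent.Results.MP_d44763_nt.StationaryStrategies

open Pool.Agent

/-- For even integers `0 < i < j` the following are equivalent: `(i, j) = (2^u, b 2^u)` with `u ≥ 1` and
`b ∈ {2, 4, 8, 16, 256}`; almost all translates of every strategy hit primes from all starting points; almost surely
every stationary random strategy hits infinitely many primes from every odd starting point; the same for every
stationary sequence of steps; every walk whose steps are eventually periodic hits infinitely many primes. Each of the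
last four properties appears twice: first the quantitative form (at least `x / (log x)^(1 + η)` primes up to `x`, at most
`X / (log X)^A` exceptional translates), then the weak form (infinitely many primes, `o(X)` exceptional translates). -/
theorem result (i j : ℤ) (hi : Even i) (hj : Even j) (h0 : 0 < i) (hij : i < j) :
    [SW.Listed i j,
      SWQ.AlmostAllTranslates i j, SWQ.PositionStationary i j, SWQ.TimeStationary i j, SWQ.PeriodicForced i j,
      SW.AlmostAllTranslates i j, SW.PositionStationary i j, SW.TimeStationary i j, SW.PeriodicForced i j].TFAE := by
  have h1 := SWQ.final i j hi hj h0 hij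
  have h2 := SW.final i j hi hj h0 hij
  tfae_have 1 ↔ 2 := h1.out 0 1
  tfae_have 1 ↔ 3 := h1.out 0 2
  tfae_have 1 ↔ 4 := h1.out 0 3
  tfae_have 1 ↔ 5 := h1.out 0 4
  tfae_have 1 ↔ 6 := h2.out 0 1
  tfae_have 1 ↔ 7 := h2.out 0 2
  tfae_have 1 ↔ 8 := h2.out 0 3
  tfae_have 1 ↔ 9 := h2.out 0 4
  tfae_finish

end Pool.Agent.Results.MP_d44763_nt.StationaryStrategies
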