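import Mathlib
import Pool.Agent.Helper27.WalkDefs
import Pool.Agent.LTC.Stmt
import Pool.Agent.LTC.Main

set_option autoImplicit false

namespace Pool.Agent.Results.MP_d44763_nt.TupleCriterion

open Pool.Agent.Helper27 Pool.Agent.LTC

/-- Q1 as a question on prime constellations.  `Blocks p q H`: every integer sequence with steps `p`, `q` that starts
below `0` meets `H`.  `Often a g H`: for infinitely many `n` all `a + g (n + h)`, `h ∈ H`, are primes.  `list25`: 25
explicit sets with 4 to 13 elements. -/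
theorem result (i j : ℤ) (hi : Even i) (hj : Even j) (h0 : 0 < i) (hij : i < j) (p q : ℕ)
    (hp : i = p * Int.gcd i j) (hq : j = q * Int.gcd i j) :
    (∃ D : ℕ, ∀ D' ≥ D, (ForcesPrimes i j ↔
      ∀ a : ℤ, Odd a → ∃ H ⊆ Finset.range D', Blocks p q H ∧ Often a (Int.gcd i j) H)) ∧
    (∀ H : Finset ℕ, Blocks p q H → q ≤ H.card ∧ ∃ x ∈ H, x + (q - p) ∈ H) ∧
    (j = 2 * i → (ForcesPrimes i j ↔ (∃ u : ℕ, i = 2 ^ u) ∧ ∀ a : ℤ, Odd a → Often a i {0, 1})) ∧
    (j = 4 * i → (ForcesPrimes i j ↔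
      (∃ u : ℕ, i = 2 ^ u) ∧ ∀ a : ℤ, Odd a → ∃ K ∈ list25, Often a i K.toFinset)) :=
  main i j hi hj h0 hij p q hp hq

end Pool.Agent.Results.MP_d44763_nt.TupleCriterion
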